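import Pool.Agent.H61.CVs.Final

/-!
# MP_8dfb46_an: the two-phase outer problem does not preserve convexity, for all `0 < σ ≤ 1/5`

The convexity question for the outer two-phase Serrin problem has a negative answer for every
conductivity `σc` of the core in the interval `(0, 1/5]` (in the plane). The definitions
`IsOutwardNormal`, `IsDomain`, `coef`, `Solves`, `IsSolution` are those of the library module
`Q61.CV.Def`.
-/

namespace Pool.Agent.Results.MP_8dfb46_an.EverySmallConductivity

open Pool.Agent.Q61.CV

/-- For every `σ` with `0 < σ ≤ 1/5` there are a convex domain `D` in the plane and a domain `Ω`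
containing the closure of `D` which is not convex such that `(D, Ω)` is a solution of the
overdetermined problem `-div ((σ 1_D + 1_{Ω \ D}) ∇u) = 1` in `Ω`, `u = 0` and `∂_n u = c` on
`∂Ω`. -/
theorem result : ∀ σ : ℝ, 0 < σ → σ ≤ 1 / 5 →
    ∃ (D Ω : Set ℂ), Convex ℝ D ∧ IsSolution σ D Ω ∧ ¬ Convex ℝ Ω := by
  intro σ h0 h1
  let I : Pool.Agent.H61.CVs.Sg := ⟨σ, h0, h1⟩
  exact @Pool.Agent.H61.CVs.main I

end Pool.Agent.Results.MP_8dfb46_an.EverySmallConductivity
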